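import Pool.Agent.MP_6a4325_al.H84.Spec3

/-!
Row FX: irreducible representations with a fixed vector are small.
-/

set_option autoImplicit false

namespace Pool.Agent.MP_6a4325_al.H86

open Pool.Agent.MP_6a4325_al.H62 Pool.Agent.MP_6a4325_al.H84 TensorProduct

variable {k : Type} [Field k]

theorem exists_pair {L T V : Type} [Group L] [AddCommGroup T] [Module k T] [AddCommGroup V]
    [Module k V] [FiniteDimensional k V] [Nontrivial V] {σ : Representation k L T} (hσ : Irr σ)
    (σ₀ : Representation k L V) {t : T} (ht : t ≠ 0) :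
    ∃ (Q : Type) (_ : AddCommGroup Q) (_ : Module k Q) (τ : Representation k L Q)
      (β : T →ₗ[k] V →ₗ[k] Q), Irr τ ∧ (∀ g y w, β (σ g y) (σ₀ g w) = τ g (β y w)) ∧ β t ≠ 0 := by
  classical
  have := hσ.1
  obtain ⟨S, hS⟩ := Module.Finite.fg_top (R := k) (M := V)
  have key : ∀ U : Submodule k (T ⊗[k] V), Inv (σ.tprod σ₀) U → (∀ w, t ⊗ₜ[k] w ∈ U) → U = ⊤ := by
    intro U hU h
    let Y : Submodule k T :=
      { carrier := {y | ∀ w, y ⊗ₜ[k] w ∈ U}
        add_mem' := fun {x y} hx hy w => by rw [add_tmul]; exact U.add_mem (hx w) (hy w)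
        zero_mem' := fun w => by rw [zero_tmul]; exact U.zero_mem
        smul_mem' := fun c x hx w => by rw [← smul_tmul']; exact U.smul_mem c (hx w) }
    have hY : Inv σ Y := fun g y hy w => by
      have h1 := hU g _ (hy (σ₀ g⁻¹ w))
      rwa [Representation.tprod_apply, map_tmul, rep_inv'] at h1
    have h2 : Y = ⊤ := (hσ.2 Y hY).resolve_left fun e => ht ((Submodule.eq_bot_iff _).1 e t h)
    refine top_le_iff.1 fun z _ => ?_
    induction z using TensorProduct.induction_on with
    | zero => exact U.zero_mem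
    | tmul y w => exact (show y ∈ Y from h2 ▸ Submodule.mem_top) w
    | add a b ha hb => exact U.add_mem (ha trivial) (hb trivial)
  have hg : gen (σ.tprod σ₀) ↑(S.image fun w => t ⊗ₜ[k] w) = ⊤ := by
    refine key _ (inv_gen _ _) fun w => ?_
    have h1 : Submodule.span k (S : Set V) ≤ Submodule.comap (mk k T V t)
        (gen (σ.tprod σ₀) ↑(S.image fun w => t ⊗ₜ[k] w)) :=
      Submodule.span_le.2 fun s hs => mem_gen _ (Finset.mem_coe.2 (Finset.mem_image_of_mem _ hs))
    exact h1 (hS ▸ Submodule.mem_top)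
  obtain ⟨U, hU, -, hI⟩ := exists_irr_quot (σ.tprod σ₀) _ hg ⊥
    (fun g u hu => by rw [(Submodule.mem_bot k).1 hu, map_zero]; exact zero_mem _) bot_ne_top
  refine ⟨_, _, _, _, (mk k T V).compr₂ U.mkQ, hI, fun g y w => rfl, fun e => ?_⟩
  exact Submodule.Quotient.nontrivial_iff.1 hI.1 (key U hU fun w =>
    (Submodule.Quotient.mk_eq_zero U).1 (LinearMap.congr_fun e w))

theorem core (hUp : SUp) {G M : Type} [Group G] [AddCommGroup M] [Module k M]
    [FiniteDimensional k M] {H : Subgroup G} {ρ : Representation k H M} (hρ : Irr ρ)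
    (hS : Stab H ρ) {L : Subgroup G} (h : H ≤ L) (hL : L.FG) {T : Type} [AddCommGroup T]
    [Module k T] {σ : Representation k L T} (hσ : Irr σ) {t : T} (ht : t ≠ 0)
    (hf : ∀ e ∈ H.subgroupOf L, σ e t = t) :
    (FiniteDimensional k T ∧ Module.finrank k T ≤ Module.finrank k M * Module.finrank k M) ∧
      ∀ a : H, ρ a = 1 → σ (Subgroup.inclusion h a) = 1 := by
  obtain ⟨V, _, _, σ₀, φ₀, hσ₀, inj, eqv, -⟩ :=
    hUp k H L M (Subgroup.inclusion h) (Subgroup.inclusion_injective h) ρ hρ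
  have := hρ.1
  have := hσ₀.1
  obtain ⟨m, hm⟩ := exists_ne (0 : M)
  have sj : Function.Surjective φ₀ := hS L h hL V σ₀ φ₀ hσ₀
    (fun e => hm (inj (by rw [e, map_zero]; rfl))) eqv
  have : FiniteDimensional k V := Module.Finite.of_surjective φ₀ sj
  obtain ⟨Q, _, _, τ, β, hτ, hβ, ht'⟩ := exists_pair hσ σ₀ ht
  have eqv' : Eqv (Subgroup.inclusion h) ρ τ (β t ∘ₗ φ₀) := fun a u => by
    rw [LinearMap.comp_apply, LinearMap.comp_apply, eqv, ← hβ, hf _ a.2]
  have sj' : Function.Surjective (β t ∘ₗ φ₀) := hS L h hL Q τ _ hτ (fun e => ht' (by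
    ext w
    obtain ⟨u, rfl⟩ := sj w
    exact LinearMap.congr_fun e u)) eqv'
  have : FiniteDimensional k Q := Module.Finite.of_surjective _ sj'
  have hk : Inv σ (LinearMap.ker β) := fun g y hy => by
    rw [LinearMap.mem_ker] at hy ⊢
    ext w
    rw [← rep_inv' σ₀ g w, hβ, hy, LinearMap.zero_apply, map_zero, LinearMap.zero_apply]
  have binj : Function.Injective β := LinearMap.ker_eq_bot.1 ((hσ.2 _ hk).resolve_right fun e =>
    ht' (LinearMap.mem_ker.1 (e ▸ Submodule.mem_top)))
  refine ⟨⟨Module.Finite.of_injective β binj, ?_⟩, fun a ha => ?_⟩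
  · refine (LinearMap.finrank_le_finrank_of_injective binj).trans ?_
    rw [Module.finrank_linearMap]
    exact Nat.mul_le_mul (LinearMap.finrank_le_finrank_of_surjective sj)
      (LinearMap.finrank_le_finrank_of_surjective sj')
  · have h1 : ∀ w, σ₀ (Subgroup.inclusion h a) w = w := fun w => by
      obtain ⟨u, rfl⟩ := sj w
      rw [← eqv, ha]
      rfl
    have h2 : ∀ q, τ (Subgroup.inclusion h a) q = q := fun q => by
      obtain ⟨u, rfl⟩ := sj' q
      rw [← eqv', ha]
      rfl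
    refine LinearMap.ext fun y => binj (LinearMap.ext fun w => ?_)
    rw [← h1 w, hβ, h2, h1]
    rfl

theorem fx : SUp → SFinR → SStab → SFx := by
  intro hUp hFin hSt p _ G _ hLP hW
  obtain ⟨H, M, _, _, ρ, hH, hρ, hd, -, hS⟩ := hSt p G hLP hW ⊥ Subgroup.FG.bot (Kp p)
    (Representation.trivial (Kp p) _ (Kp p)) ⟨inferInstance, fun U _ => eq_bot_or_eq_top U⟩
  have hfin := hFin p H M ρ ((Group.fg_iff_subgroup_fg H).2 hH) hd
  have : Finite ρ.toHomUnits.range := by
    refine Set.Finite.to_subtype (Set.Finite.of_finite_image (f := Units.val) (hfin.subset ?_)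
      Units.val_injective.injOn)
    rintro _ ⟨_, ⟨a, rfl⟩, rfl⟩
    exact ⟨a, rfl⟩
  refine ⟨H, ρ.toHomUnits.ker.map H.subtype, Module.finrank (Kp p) M * Module.finrank (Kp p) M,
    hH, Subgroup.map_subtype_le _, ?_, fun L h hL T _ _ σ hσ t ht hf => ?_,
    fun L h hL T _ _ σ hσ t ht hf g hg => ?_⟩
  · rw [Subgroup.relIndex, Subgroup.subgroupOf,
      Subgroup.comap_map_eq_self_of_injective H.subtype_injective]
    exact (Subgroup.finiteIndex_ker _).index_ne_zero
  · exact (core hUp hρ hS h hL hσ ht hf).1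
  · obtain ⟨a, ha, e⟩ := Subgroup.mem_subgroupOf.1 hg
    rw [show g = Subgroup.inclusion h a from Subtype.ext e.symm]
    exact (core hUp hρ hS h hL hσ ht hf).2 a (congrArg Units.val (MonoidHom.mem_ker.1 ha))

end Pool.Agent.MP_6a4325_al.H86
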